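import Pool.Agent.U41.OD.Stm0

set_option autoImplicit false

namespace Pool.Agent.U41.OD

open MvPolynomial

namespace SQaux

variable {O σ : Type} [CommRing O] [Fintype σ] [DecidableEq σ]

theorem sub_C_mem (Q : Ideal (MvPolynomial σ O)) (a : σ → O) (hX : ∀ l, X l - C (a l) ∈ Q)
    (P : MvPolynomial σ O) : P - C (eval a P) ∈ Q := by
  rw [← Ideal.Quotient.eq]
  have h : (Ideal.Quotient.mk Q) = (Ideal.Quotient.mk Q).comp
      ((C : O →+* MvPolynomial σ O).comp (eval a)) := by
    apply MvPolynomial.ringHom_ext
    · intro r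
      simp
    · intro i
      simp only [RingHom.comp_apply, eval_X]
      rw [Ideal.Quotient.eq]
      exact hX i
  exact congrArg (fun f => f P) (congrArg (fun f : MvPolynomial σ O →+* _ => (f : _ → _)) h)

theorem taylor (Q : Ideal (MvPolynomial σ O)) (a : σ → O) (hX : ∀ l, X l - C (a l) ∈ Q)
    (g : MvPolynomial σ O) :
    g - C (eval a g) - ∑ j, C (eval a (pderiv j g)) * (X j - C (a j)) ∈ Q ^ 2 := by
  induction g using MvPolynomial.induction_on with
  | C r => simp
  | add p q hp hq =>
    have e : p + q - C (eval a (p + q)) -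
        ∑ j, C (eval a (pderiv j (p + q))) * (X j - C (a j)) =
        (p - C (eval a p) - ∑ j, C (eval a (pderiv j p)) * (X j - C (a j))) +
        (q - C (eval a q) - ∑ j, C (eval a (pderiv j q)) * (X j - C (a j))) := by
      simp only [map_add, add_mul, Finset.sum_add_distrib]
      ring
    rw [e]
    exact Ideal.add_mem _ hp hq
  | mul_X p i hp =>
    have e : p * X i - C (eval a (p * X i)) -
        ∑ j, C (eval a (pderiv j (p * X i))) * (X j - C (a j)) =
        (p - C (eval a p) - ∑ j, C (eval a (pderiv j p)) * (X j - C (a j))) * C (a i) +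
        (p - C (eval a p)) * (X i - C (a i)) := by
      have e1 : ∑ j, C (eval a (pderiv j (p * X i))) * (X j - C (a j)) =
          (∑ j, C (eval a (pderiv j p)) * (X j - C (a j))) * C (a i) +
          C (eval a p) * (X i - C (a i)) := by
        rw [Finset.sum_mul]
        have e2 : ∀ j, C (eval a (pderiv j (p * X i))) * (X j - C (a j)) =
            C (eval a (pderiv j p)) * (X j - C (a j)) * C (a i) +
            (if j = i then C (eval a p) * (X i - C (a i)) else 0) := by
          intro j
          rw [pderiv_mul]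
          by_cases hji : j = i
          · subst hji
            rw [pderiv_X_self, if_pos rfl]
            simp only [map_add, map_mul, eval_X, map_one]
            ring
          · rw [pderiv_X_of_ne (fun h => hji h.symm), if_neg hji]
            simp only [map_add, map_mul, eval_X, mul_zero, add_zero]
            ring
        rw [Finset.sum_congr rfl fun j _ => e2 j, Finset.sum_add_distrib]
        simp
      rw [e1]
      simp only [map_mul, eval_X]
      ring
    rw [e]
    refine Ideal.add_mem _ (Ideal.mul_mem_right _ _ hp) ?_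
    rw [pow_two]
    exact Ideal.mul_mem_mul (sub_C_mem Q a hX p) (hX i)

end SQaux

open SQaux in
theorem SQ_ok : S_SQ := by
  intro O σ _ _ _ _ g 𝔭 h𝔭 h0 Q hQ hC a hX hd hv h hh hmem
  have hmax : 𝔭.IsMaximal := h𝔭.isMaximal h0
  apply hv
  set v := eval a g with hvdef
  -- `h * C v ∈ Q ^ 2`
  have h1 : h * C v ∈ Q ^ 2 := by
    have e : h * C v = h * g -
        h * (g - C v - ∑ j, C (eval a (pderiv j g)) * (X j - C (a j))) -
        h * ∑ j, C (eval a (pderiv j g)) * (X j - C (a j)) := by ring
    rw [e]
    refine Ideal.sub_mem _ (Ideal.sub_mem _ hmem (Ideal.mul_mem_left _ _ (taylor Q a hX g))) ?_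
    refine Ideal.mul_mem_left _ _ (Ideal.sum_mem _ fun j _ => ?_)
    rw [pow_two]
    exact Ideal.mul_mem_mul ((hC _).mpr (hd j)) (hX j)
  have hvp : v ∈ 𝔭 := by
    have h2 : h * C v ∈ Q := Ideal.pow_le_self (by norm_num) h1
    rcases hQ.mem_or_mem h2 with h3 | h3
    · exact absurd h3 hh
    · exact (hC v).mp h3
  have hle : Ideal.map (eval a) Q ≤ 𝔭 := by
    rw [Ideal.map_le_iff_le_comap]
    intro P hP
    rw [Ideal.mem_comap]
    apply (hC _).mp
    have := Ideal.sub_mem _ hP (sub_C_mem Q a hX P)
    rwa [sub_sub_cancel] at this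
  have h3 : eval a h * v ∈ 𝔭 ^ 2 := by
    have h4 : eval a (h * C v) ∈ Ideal.map (eval a) (Q ^ 2) := Ideal.mem_map_of_mem _ h1
    rw [Ideal.map_pow] at h4
    have h5 := Ideal.pow_right_mono hle 2 h4
    rwa [map_mul, eval_C] at h5
  have h6 : eval a h ∉ 𝔭 := by
    intro h7
    apply hh
    have := Ideal.add_mem _ (sub_C_mem Q a hX h) ((hC _).mpr h7)
    rwa [sub_add_cancel] at this
  obtain ⟨y, z, hz, hyz⟩ := hmax.exists_inv h6
  have e : v = y * (eval a h * v) + z * v := by
    calc v = 1 * v := (one_mul v).symm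
      _ = (y * eval a h + z) * v := by rw [hyz]
      _ = _ := by ring
  rw [e]
  refine Ideal.add_mem _ (Ideal.mul_mem_left _ _ h3) ?_
  rw [pow_two]
  exact Ideal.mul_mem_mul hz hvp

end Pool.Agent.U41.OD
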